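import Pool.Agent.Lib_helper59.Gap59.LowerBound
import Pool.Agent.Lib_helper59.Gap59.UpperBound

set_option autoImplicit false

namespace Pool.Agent.Results.MP_a0ba93_nt.AttainableExponents

/-- The set of attainable exponents is `[(5 + √17) / 2, ∞)`. -/
theorem result : ∀ c : ℝ, Pool.Agent.Gap59.Attainable c ↔ (5 + Real.sqrt 17) / 2 ≤ c := by
  intro c
  rw [Pool.Agent.Gap59.attainable_iff]
  exact ⟨Pool.Agent.Gap59.ge_of_attainable, Pool.Agent.Gap59.attainable_of_ge⟩

end Pool.Agent.Results.MP_a0ba93_nt.AttainableExponents
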